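import Pool.Agent.N120.TC.Core8
import Pool.Agent.N120.TC.P
import Pool.Agent.N120.TC.V
import Pool.Agent.N120.TC.W
import Pool.Agent.N120.TC.A
import Pool.Agent.N120.TC.Z
import Pool.Agent.N120.TC.U

/-!
# Integral points on every ramified cyclic cover of a torus

Let `K` be a number field contained in a cyclotomic field (an abelian field), `ℓ` a prime, and let
`g ∈ K[x_1, …, x_n]` be any polynomial which is not of the form `c x^a h^ℓ`. So

    U : w^ℓ = g(x) → G_m^n

is an arbitrary ramified cyclic cover of degree `ℓ` of the torus (if `g = c x^a h^ℓ`, then `U` is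
birational to an unramified cover, and the conclusion below is false for a twist of `U`). For example
`w² = y + a x² + b x + c` is the complement of a conic and two lines in the plane. If `U` is of log
general type, the conjecture of Lang and Vojta predicts that its `S`-integral points are not Zariski
dense; since their images are in the group `(𝓞_(K,S)ˣ)^n` of rank `ρ`, the number of those of log
height at most `T` would be `O(T^(ρ - 1))`. This is open for `n ≥ 2`, already for almost all double
covers of `G_m^2`.

We prove unconditionally a power saving beyond `1/4` for every `U`: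

**Theorem.** There is `η > 1/4`, which depends only on `K` and `ℓ`, such that for all `n`, all `g` as
above, all infinite finitely generated subgroups `Γ_1, …, Γ_n` of `Kˣ` and all finitely generated
subgroups `Δ` of `Kˣ` there is a constant `C` such that for all `T ≥ 1` and all
`y ∈ Γ_1 × ⋯ × Γ_n` at most `C T^(ρ - η)`, `ρ = rank Γ_1 + ⋯ + rank Γ_n`, points
`x ∈ Γ_1 × ⋯ × Γ_n` with `h(x_i / y_i) ≤ T` lift to a `K`-rational point of one of the twists
`δ w^ℓ = g(x)`, `δ ∈ Δ`, of `U`.

(`y = 1`, `Γ_i = 𝓞_(K,S)ˣ`, `Δ ∋ 1`: all `S`-integral points of `U` of log height at most `T`. The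
number of all `x` is of the order `T^ρ`. The constant does not depend on the centre `y`.)

The proof is a large sieve with the moduli `p - 1` for the exponents of one coordinate, `p ≤ √T`
running through the primes `p ≡ 1 mod Mℓ` such that `p - 1` has a prime factor `q > p^(1/2+κ)`; by
a theorem of Goldfeld, proved here in the class `1 mod Mℓ`, these are a positive proportion of all
primes `≡ 1 mod Mℓ`. For such `p` Weil's bound for character sums over the subgroup of order `q` of
`(ℤ/p)ˣ` shows that in each class modulo `(p-1)/q` the exponents of liftable points are in few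
classes modulo `p - 1`; the gain over the usual large sieve comes from the large denominators. The
polynomial in the remaining variables which controls the reduction of the ramification is treated by
the lemma of Schwartz and Zippel on average over `p`.

Subtasks were proved by helper93 (P), helper966 (V, W), helper424 (A), helper407 (Z, U).
-/

set_option autoImplicit false

namespace Pool.Agent.Results.MP_26d9ad_nt.CyclicCoversOfTori

open NumberField

/-- The cover `w ^ ℓ = g(x)` of the torus is unramified up to birational equivalence: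
`g = c x^a h^ℓ`. -/
def Unramified {K : Type} [Field K] {n : ℕ} (ℓ : ℕ) (g : MvPolynomial (Fin n) K) : Prop :=
  ∃ (a : Fin n →₀ ℕ) (c : K) (h : MvPolynomial (Fin n) K), g = MvPolynomial.monomial a c * h ^ ℓ

/-- the points `x ∈ Γ_1 × ⋯ × Γ_n` with `h(x_i / y_i) ≤ T` for which `δ w ^ ℓ = g(x)` has a solution
`w ∈ K` for some `δ ∈ Δ` -/
def Liftable {K : Type} [Field K] [NumberField K] {n : ℕ} (ℓ : ℕ) (g : MvPolynomial (Fin n) K)
    (Γ : Fin n → Subgroup Kˣ) (Δ : Subgroup Kˣ) (y : Fin n → Kˣ) (T : ℝ) : Set (Fin n → Kˣ) :=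
  {x | (∀ i, x i ∈ Γ i ∧ Height.logHeight₁ ((x i / y i : Kˣ) : K) ≤ T) ∧
    ∃ δ ∈ Δ, ∃ w : K, (δ : K) * w ^ ℓ = MvPolynomial.eval (fun i => ((x i : Kˣ) : K)) g}

/-- The number of points in `Γ_1 × ⋯ × Γ_n` of log height at most `T` which lift to a rational point
of a given ramified cyclic cover of the torus is `O(T ^ (ρ - η))`, `η > 1/4`. -/
theorem result (K : Type) [Field K] [NumberField K] (M : ℕ) (hM : 0 < M)
    (hK : Nonempty (K →+* CyclotomicField M ℚ)) (ℓ : ℕ) (hℓ : ℓ.Prime) :
    ∃ η : ℝ, 1 / 4 < η ∧
      ∀ (n : ℕ) (g : MvPolynomial (Fin n) K), ¬ Unramified ℓ g →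
      ∀ Γ : Fin n → Subgroup Kˣ, (∀ i, (Γ i).FG) → (∀ i, Infinite (Γ i)) →
      ∀ Δ : Subgroup Kˣ, Δ.FG →
      ∃ C : ℝ, ∀ y : Fin n → Kˣ, (∀ i, y i ∈ Γ i) → ∀ T : ℝ, 1 ≤ T →
        (Liftable ℓ g Γ Δ y T).Finite ∧ ((Liftable ℓ g Γ Δ y T).ncard : ℝ) ≤
          C * T ^ ((∑ i, (Module.finrank ℤ (Additive (Γ i)) : ℝ)) - η) :=
  Pool.Agent.N120.TC.heights Pool.Agent.N120.TC.t_P Pool.Agent.N120.TC.t_V
    Pool.Agent.N120.TC.t_W Pool.Agent.N120.TC.t_A Pool.Agent.N120.TC.t_Z Pool.Agent.N120.TC.t_U
    K M hM hK ℓ hℓ

end Pool.Agent.Results.MP_26d9ad_nt.CyclicCoversOfTori
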