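import Mathlib
import Pool.Agent.N754.FG.Main
import Pool.Agent.N49.FG.RQ1
import Pool.Agent.N455.FG.RQ3
import Pool.Agent.N558.FG.SP
import Pool.Agent.N441.FG.TR

/-!
MP_26d9ad_nt, Q1: integral points over finitely generated rings, entire curves and Laurent curves,
for affine varieties which are linear, or have only points as fibres, over a torus.
-/

set_option autoImplicit false

namespace Pool.Agent.Results.MP_26d9ad_nt.FinitelyGeneratedRings

open MvPolynomial NumberField Pool.Agent.H159R3.Exp Pool.Agent.W235.RM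

/-- The complex points of the affine variety given by the polynomials `F i`. -/
def Pts {n : ℕ} {ι : Type} (F : ι → MvPolynomial (Fin n) ℂ) : Set (Fin n → ℂ) :=
  {z | ∀ i, eval z (F i) = 0}

/-- The points of `V = {F = 0}` on the nonconstant curves in `V` with Laurent coordinates. -/
def Exc {n : ℕ} {ι : Type} (F : ι → MvPolynomial (Fin n) ℂ) : Set (Fin n → ℂ) :=
  {x | ∃ v : ℂ → Fin n → ℂ, (∀ j, Laur fun t => v t j) ∧ (∀ t, t ≠ 0 → v t ∈ Pts F) ∧ v 1 = x ∧
    ∃ t, t ≠ 0 ∧ v t ≠ x}

/-- The points of `V` with coordinates in the ring generated by the finite set `s`. -/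
def PtsOver {n : ℕ} {ι : Type} (F : ι → MvPolynomial (Fin n) ℂ) (s : Finset ℂ) :
    Set (Fin n → ℂ) :=
  {x | x ∈ Pts F ∧ ∀ j, x j ∈ Subring.closure (s : Set ℂ)}

/-- The nonconstant entire curves in `V`. -/
def Entire {n : ℕ} {ι : Type} (F : ι → MvPolynomial (Fin n) ℂ) : Set (ℂ → Fin n → ℂ) :=
  {f | Differentiable ℂ f ∧ (∀ z, f z ∈ Pts F) ∧ ∃ z w, f z ≠ f w}

/-- The nonconstant maps from the punctured line to `V` with Laurent coordinates. -/
def Laurents {n : ℕ} {ι : Type} (F : ι → MvPolynomial (Fin n) ℂ) : Set (ℂ → Fin n → ℂ) :=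
  {v | (∀ j, Laur fun t => v t j) ∧ (∀ t, t ≠ 0 → v t ∈ Pts F) ∧
    ∃ s t, s ≠ 0 ∧ t ≠ 0 ∧ v s ≠ v t}

/-- The polynomials have degree at most one in the variables with index outside `U`. -/
def LinearOff {n : ℕ} {ι : Type} (F : ι → MvPolynomial (Fin n) ℂ) (U : Finset (Fin n)) : Prop :=
  ∀ i, ∀ s ∈ (F i).support, ∑ j ∈ Uᶜ, s j ≤ 1

/-- Every point of `V` outside `V'` which has the same coordinates with index in `U` as another
point of `V` is in `Exc V`. -/
def FibresCovered {n : ℕ} {ι κ : Type} (F : ι → MvPolynomial (Fin n) ℂ)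
    (G : κ → MvPolynomial (Fin n) ℂ) (U : Finset (Fin n)) : Prop :=
  ∀ z ∈ Pts F, z ∉ Pts G → ∀ z' ∈ Pts F, (∀ i ∈ U, z' i = z i) → z' ≠ z → z ∈ Exc F

theorem covered {n : ℕ} {ι κ : Type} (F : ι → MvPolynomial (Fin n) ℂ)
    (G : κ → MvPolynomial (Fin n) ℂ) (U : Finset (Fin n))
    (hfib : LinearOff F U ∨ FibresCovered F G U) : Pool.Agent.N754.FG.Covered F G U := by
  classical
  rcases hfib with hlin | h
  · rintro z hz _ ⟨z', hz', hzU, hne⟩
    refine ⟨fun t j => z j + (t - 1) * (z' j - z j), fun j => ?_, fun t _ i => ?_, ?_, 2,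
      two_ne_zero, ?_⟩
    · have h5 : (fun s : ℂ => z j + (s - 1) * (z' j - z j)) =
          fun s => z j + (s + (-1)) * (z' j - z j) := by
        funext s
        rw [sub_eq_add_neg s 1]
      rw [h5]
      exact (Laur.const _).add ((Laur.id.add (Laur.const _)).mul (Laur.const _))
    · have hP : Pool.Agent.N754.LT.LinOff U (F i) := hlin i
      have e1 := Pool.Agent.N754.LT.affine_expand U (F i) hP
        (fun j => z j + (t - 1) * (z' j - z j))
      have e2 := Pool.Agent.N754.LT.affine_expand U (F i) hP z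
      have e3 := Pool.Agent.N754.LT.affine_expand U (F i) hP z'
      simp only [Pool.Agent.N754.LT.ae_eval] at e1 e2 e3
      have z1 : Pool.Agent.N754.LT.z0 U (fun j => z j + (t - 1) * (z' j - z j)) =
          Pool.Agent.N754.LT.z0 U z := by
        funext j
        unfold Pool.Agent.N754.LT.z0
        by_cases hj : j ∈ U
        · rw [if_pos hj, if_pos hj]
          show z j + (t - 1) * (z' j - z j) = z j
          rw [hzU j hj, sub_self, mul_zero, add_zero]
        · rw [if_neg hj, if_neg hj]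
      have z2 : Pool.Agent.N754.LT.z0 U z' = Pool.Agent.N754.LT.z0 U z := by
        funext j
        unfold Pool.Agent.N754.LT.z0
        by_cases hj : j ∈ U
        · rw [if_pos hj, if_pos hj, hzU j hj]
        · rw [if_neg hj, if_neg hj]
      have hz0 : eval z (F i) = 0 := hz i
      have hz0' : eval z' (F i) = 0 := hz' i
      rw [e2] at hz0
      rw [e3, z2] at hz0'
      show eval (fun j => z j + (t - 1) * (z' j - z j)) (F i) = 0
      rw [e1, z1]
      have h9 : ∑ j ∈ Uᶜ, (z j + (t - 1) * (z' j - z j)) *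
          eval (Pool.Agent.N754.LT.z0 U z) (pderiv j (F i)) =
          (2 - t) * ∑ j ∈ Uᶜ, z j * eval (Pool.Agent.N754.LT.z0 U z) (pderiv j (F i)) +
            (t - 1) * ∑ j ∈ Uᶜ, z' j * eval (Pool.Agent.N754.LT.z0 U z) (pderiv j (F i)) := by
        rw [Finset.mul_sum, Finset.mul_sum, ← Finset.sum_add_distrib]
        refine Finset.sum_congr rfl fun j _ => ?_
        ring
      rw [h9]
      linear_combination (2 - t) * hz0 + (t - 1) * hz0'
    · funext j
      simp
    · intro h2
      apply hne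
      funext j
      have h3 : z j + (2 - 1) * (z' j - z j) = z j := congrFun h2 j
      linear_combination h3
  · rintro z hz hzG ⟨z', hz', hzU, hne⟩
    exact h z hz hzG z' hz' hzU hne

/-- Let `V = {F = 0}` be an affine variety over `ℂ`, `V'` its closed subset given by `G`, and `U` a
set of coordinates which have no zeros on `V`. Suppose that `F` has degree at most one in the other
coordinates or, more generally, that every point of `V` outside `V'` which is not alone in its fibre
over the torus with coordinates in `U` lies on a nonconstant curve in `V` with Laurent coordinates.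
Let `Exc V` be the union of these curves. Then:
* for every finitely generated subring `R` of `ℂ`, all but finitely many points of `V(R)` are in
  `V'` or in `Exc V`;
* for every nonconstant entire curve `f` in `V`, the points `z` for which `f z` is not in `V'` nor
  in `Exc V` are isolated (they have no accumulation point in `ℂ`);
* the following are equivalent: the nonconstant entire curves in `V` lie in `V'`; the sets
  `V(R) ∖ V'` are finite, for all finitely generated subrings `R` of `ℂ`; the nonconstant curves in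
  `V` with Laurent coordinates lie in `V'`;
* if `V` and `V'` are defined over the integers of a number field `K`, then it is enough to know the
  finiteness for the rings of `S`-integers of finite extensions of `K`. -/
theorem result {n : ℕ} {ι κ : Type} [Finite ι] (F : ι → MvPolynomial (Fin n) ℂ)
    (G : κ → MvPolynomial (Fin n) ℂ) (U : Finset (Fin n)) (hU : ∀ z ∈ Pts F, ∀ i ∈ U, z i ≠ 0)
    (hfib : LinearOff F U ∨ FibresCovered F G U) :
    (∀ s : Finset ℂ, (PtsOver F s \ (Pts G ∪ Exc F)).Finite) ∧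
    (∀ f ∈ Entire F, ∀ z1, ∀ᶠ z in nhdsWithin z1 {z1}ᶜ, f z ∈ Pts G ∪ Exc F) ∧
    List.TFAE [∀ f ∈ Entire F, ∀ z, f z ∈ Pts G, ∀ s : Finset ℂ, (PtsOver F s \ Pts G).Finite,
      ∀ v ∈ Laurents F, ∀ t, t ≠ 0 → v t ∈ Pts G] ∧
    ∀ (K : Type) [Field K] [NumberField K] (σ : K →+* ℂ) (F0 : ι → MvPolynomial (Fin n) (𝓞 K))
      (G0 : κ → MvPolynomial (Fin n) (𝓞 K)),
      (∀ i, map (σ.comp (algebraMap (𝓞 K) K)) (F0 i) = F i) →
      (∀ i, map (σ.comp (algebraMap (𝓞 K) K)) (G0 i) = G i) → FinitelyManyIntegral F0 G0 →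
      ∀ s : Finset ℂ, (PtsOver F s \ Pts G).Finite := by
  classical
  have hSP : Pool.Agent.N754.FG.SP :=
    Pool.Agent.N558.FG.sp (Pool.Agent.N455.FG.rq3 Pool.Agent.N49.FG.rq1)
  obtain ⟨hA, hB, hC⟩ := Pool.Agent.N754.FG.tfaeC hSP Pool.Agent.N441.FG.tr F G U hU
    (covered F G U hfib)
  have hset : ∀ s : Finset ℂ, PtsOver F s \ Pts G = {x : Fin n → ℂ |
      (∀ j, x j ∈ Subring.closure (s : Set ℂ)) ∧ x ∈ Pool.Agent.N754.FG.Pts F ∧
      x ∉ Pool.Agent.N754.FG.Pts G} := by
    intro s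
    ext x
    exact ⟨fun h => ⟨h.1.2, h.1.1, h.2⟩, fun h => ⟨⟨h.2.1, h.1⟩, h.2.2⟩⟩
  have h1 : (∀ f ∈ Entire F, ∀ z, f z ∈ Pts G) ↔ Pool.Agent.N754.FG.EntireIn F G :=
    ⟨fun h f h1 h2 h3 => h f ⟨h1, h2, h3⟩, fun h f hf => h f hf.1 hf.2.1 hf.2.2⟩
  have h2 : (∀ s : Finset ℂ, (PtsOver F s \ Pts G).Finite) ↔ Pool.Agent.N754.FG.FinOver F G :=
    forall_congr' fun s => by rw [hset s]
  have h3 : (∀ v ∈ Laurents F, ∀ t, t ≠ 0 → v t ∈ Pts G) ↔
      Pool.Agent.N754.FG.LaurentIn F G :=
    ⟨fun h v h1 h2 h3 => h v ⟨h1, h2, h3⟩, fun h v hv => h v hv.1 hv.2.1 hv.2.2⟩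
  refine ⟨fun s => ?_, fun f hf z1 => ?_, ?_, ?_⟩
  · refine (hA s).subset ?_
    rintro x ⟨⟨h4, h5⟩, h6⟩
    exact ⟨h5, h4, fun h => h6 (Or.inl h), fun h => h6 (Or.inr h)⟩
  · exact hB f hf.1 hf.2.1 hf.2.2 z1
  · rw [h1, h2, h3]
    exact hC
  · intro K _ _ σ F0 G0 hF0 hG0 hfin
    refine h2.2 ((hC.out 2 1).1 ?_)
    have h4 : GmCurvesIn σ F0 G0 :=
      ((tfae σ F0 G0).out 5 1).1 (rec_of_integral F0 G0 hfin)
    intro v hv hvF ⟨a, b, ha, hb, hab⟩ t ht l
    have h5 := h4 v hv (fun i t ht => by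
      have h6 := hvF t ht i
      rw [← hF0 i, eval_map] at h6
      exact h6) ⟨a, b, ha, hb, hab⟩ l t ht
    show eval (v t) (G l) = 0
    rw [← hG0 l, eval_map]
    exact h5

end Pool.Agent.Results.MP_26d9ad_nt.FinitelyGeneratedRings
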