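import Pool.Agent.N89.GS.Fin

/-!
# Lang–Vojta for 100 % of the complete intersections in an arbitrary family over a semiabelian variety

`K` is a number field, `G = E_1 × ⋯ × E_r × G_m^s`, where `E_i` is an elliptic curve `y² = x³ + a_i x`
or `y² = x³ + b_i`, and `𝒯 ⊂ G × ℙ^(m-1)` is an arbitrary closed subscheme, given by polynomials
`G_e(V, u, T)` over `𝓞 K` (`V_i` homogeneous coordinates in the plane of `E_i`, `u ∈ G_m^s`, `T`
homogeneous coordinates of `ℙ^(m-1)`). We only assume that all the complex fibres of `𝒯` over `G` have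
dimension at most `κ`, `κ ≥ 1`.

A linear system on `𝒯` is a finite family `Λ = (Λ_x)` of polynomials over `𝓞 K` of the same degrees. It
separates `k₀` points if the vectors `(Λ_x(P))_x` at any `l ≤ k₀` different complex points `P` of `𝒯` are
linearly independent; we need it only for points in one fibre over `G` (`SepFib`) and for points over
two points of `G` (`SepTwo`). A point of `𝒯` over a number field `L ⊃ K` is `Γ`-integral, `Γ ⊂ Lˣ`
finitely generated, if its torus coordinates `u_l` are in `Γ`; for `Γ = 𝓞_(L,S)ˣ` these are the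
`S`-integral points of `𝒯` (as `E_i` and `ℙ^(m-1)` are projective), for `s = 0` all `L`-rational points.

**Theorem.** There is a number `k₀` which depends only on `𝒯` such that for all linear systems
`Λ_1, …, Λ_κ` on `𝒯` which separate `k₀` points, and all `Φ_1, …, Φ_κ` of the same degrees, almost all
complete intersections `X_c = 𝒯 ∩ {Φ_j + ∑_x c_(j,x) Λ_(j,x) = 0, j = 1, …, κ}`, `c ∈ (𝓞 K)^n`, have
no integral points:

1. for every finite extension `L` of `K` and every finitely generated `Γ ⊂ Lˣ` at most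
   `(2H+1)^(nN) exp(-c₀ log H / log log H)` of the `(2H+1)^(nN)` vectors `c` of size at most `H` are
   such that `X_c` has a `Γ`-integral point over `L`, `N = [K : ℚ]`;
2. there is one exceptional set `𝓔`, with at most `(2H+1)^(nN) exp(-log H / (log log H)²)` elements of
   size at most `H`, such that for all `L` and all `Γ` all but finitely many of the `X_c`, `c ∉ 𝓔`, have
   no `Γ`-integral point over `L`.

For `L = K` it suffices that the `Λ_j` separate `k₀` points in the same fibre over `G`. The last part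
of the theorem gives such linear systems: all monomials `V^μ u^x T^α`, `μ` of a given multidegree `d`,
`α` of degree `e ≥ k₀ - 1`, `x = x₀`, separate `k₀` points in the same fibre, and also any `k₀` points
over two points of `G` if all `d_i ≥ 1` and if one adds the `x = x₀ + ε_l`.
-/

set_option autoImplicit false

namespace Pool.Agent.Results.MP_26d9ad_nt.LinearSystemsOverSemiabelian

open MvPolynomial NumberField

/-- polynomials with coefficients in `O` in the homogeneous coordinates `V_(i,j)`, `i < r`, `j < 3`,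
of points in `r` planes, the coordinates `u_l` of a torus of dimension `s` and the homogeneous
coordinates `T_0, …, T_(m-1)` -/
abbrev Pol (O : Type) [CommRing O] (r s m : ℕ) : Type :=
  MvPolynomial ((Fin r × Fin 3) ⊕ (Fin s ⊕ Fin m)) O

/-- homogeneous of degree `d i` in `V_i` and of degree `e` in `T` -/
def Homog {O : Type} [CommRing O] {r s m : ℕ} (F : Pol O r s m) (d : Fin r → ℕ) (e : ℕ) : Prop :=
  (∀ μ ∈ F.support, ∀ i, ∑ j, μ (Sum.inl (i, j)) = d i) ∧
    ∀ μ ∈ F.support, ∑ x, μ (Sum.inr (Sum.inr x)) = e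

/-- the value `F(V, u, T)`; the coefficients are mapped by `φ` -/
noncomputable def val {O k : Type} [CommRing O] [CommRing k] (φ : O →+* k) {r s m : ℕ}
    (F : Pol O r s m) (V : Fin r → Fin 3 → k) (u : Fin s → k) (T : Fin m → k) : k :=
  eval₂ φ (Sum.elim (fun ij => V ij.1 ij.2) (Sum.elim u T)) F

/-- `(V, u)` represents a point of `E_1 × ⋯ × E_r × G_m^s`, `E_i : y² = x³ + a_i x + b_i` -/
def OnG {k : Type} [Field k] {r s : ℕ} (a b : Fin r → ℤ) (V : Fin r → Fin 3 → k) (u : Fin s → k) :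
    Prop :=
  (∀ i, V i ≠ 0 ∧ V i 1 ^ 2 * V i 2 = V i 0 ^ 3 + a i * V i 0 * V i 2 ^ 2 + b i * V i 2 ^ 3) ∧
    ∀ l, u l ≠ 0

/-- `T` represents a point of the fibre of `𝒯` over `(V, u)` -/
def OnT {O k : Type} [CommRing O] [Field k] (φ : O →+* k) {r s m q : ℕ} (G : Fin q → Pol O r s m)
    (V : Fin r → Fin 3 → k) (u : Fin s → k) (T : Fin m → k) : Prop :=
  T ≠ 0 ∧ ∀ e, val φ (G e) V u T = 0

/-- the embedding of `𝓞 K` in a field `L ⊃ K`, or in `ℂ` -/
noncomputable def emb {K L : Type} [Field K] [Field L] (σ : K →+* L) : 𝓞 K →+* L :=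
  σ.comp (algebraMap (𝓞 K) K)

/-- all complex fibres of `𝒯` over `G` have dimension at most `κ`: for every complex point `(V, u)`
of `G` there are `κ + 1` linear forms in `T` without a common zero on the fibre over `(V, u)` -/
def DimLE {K : Type} [Field K] (σ : K →+* ℂ) {r s m q : ℕ} (a b : Fin r → ℤ)
    (G : Fin q → Pol (𝓞 K) r s m) (κ : ℕ) : Prop :=
  ∀ (V : Fin r → Fin 3 → ℂ) (u : Fin s → ℂ), OnG a b V u →
    ∃ ℓ : Fin (κ + 1) → Fin m → ℂ, ∀ T, OnT (emb σ) G V u T → ∃ i, ∑ j, ℓ i j * T j ≠ 0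

/-- the linear system `Λ` separates `k₀` complex points in the same fibre of `𝒯` over `G` -/
def SepFib {K : Type} [Field K] (σ : K →+* ℂ) {r s m q : ℕ} (a b : Fin r → ℤ)
    (G : Fin q → Pol (𝓞 K) r s m) {ι : Type} (Λ : ι → Pol (𝓞 K) r s m) (k₀ : ℕ) : Prop :=
  ∀ (V : Fin r → Fin 3 → ℂ) (u : Fin s → ℂ), OnG a b V u → ∀ l ≤ k₀, ∀ T : Fin l → Fin m → ℂ,
    (∀ i, OnT (emb σ) G V u (T i)) → (∀ i j, i ≠ j → ∀ c : ℂ, T i ≠ c • T j) →
      LinearIndependent ℂ (fun i => fun x => val (emb σ) (Λ x) V u (T i))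

/-- the linear system `Λ` separates `k₀` complex points of `𝒯` which lie over two different points
`(V, u)` and `(V', u')` of `G` -/
def SepTwo {K : Type} [Field K] (σ : K →+* ℂ) {r s m q : ℕ} (a b : Fin r → ℤ)
    (G : Fin q → Pol (𝓞 K) r s m) {ι : Type} (Λ : ι → Pol (𝓞 K) r s m) (k₀ : ℕ) : Prop :=
  ∀ (V V' : Fin r → Fin 3 → ℂ) (u u' : Fin s → ℂ), OnG a b V u → OnG a b V' u' →
    ¬ ((∀ i, ∃ c : ℂ, V i = c • V' i) ∧ u = u') → ∀ l ≤ k₀, ∀ (g : Fin l → Bool)
    (T : Fin l → Fin m → ℂ), (∀ i, OnT (emb σ) G (cond (g i) V' V) (cond (g i) u' u) (T i)) →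
    (∀ i j, i ≠ j → g i = g j → ∀ c : ℂ, T i ≠ c • T j) →
      LinearIndependent ℂ
        (fun i => fun x => val (emb σ) (Λ x) (cond (g i) V' V) (cond (g i) u' u) (T i))

/-- the set of the `c`, `c_(j,x) = ∑_i c_(j,x,i) ω_i ∈ 𝓞 K`, such that the complete intersection
`X_c : Φ_j + ∑_x c_(j,x) Λ_(j,x) = 0` in `𝒯` has a point over `L` with torus coordinates in `Γ` -/
def HasPoint {K L : Type} [Field K] [NumberField K] [Field L] [Algebra K L] {N κ r s m q : ℕ}
    (ω : Module.Basis (Fin N) ℤ (𝓞 K)) (a b : Fin r → ℤ) (Γ : Subgroup Lˣ)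
    (G : Fin q → Pol (𝓞 K) r s m) (Φ : Fin κ → Pol (𝓞 K) r s m) {ι : Fin κ → Type}
    [∀ j, Fintype (ι j)] (Λ : (j : Fin κ) → ι j → Pol (𝓞 K) r s m) :
    Set ((Σ j, ι j) × Fin N → ℤ) :=
  {c | ∃ (V : Fin r → Fin 3 → L) (u : Fin s → Lˣ) (T : Fin m → L),
    OnG a b V (fun l => (u l : L)) ∧ (∀ l, u l ∈ Γ) ∧
    OnT (emb (algebraMap K L)) G V (fun l => (u l : L)) T ∧
    ∀ j, val (emb (algebraMap K L)) (Φ j) V (fun l => (u l : L)) T +
      ∑ x, emb (algebraMap K L) (∑ i, c (⟨j, x⟩, i) • ω i) *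
        val (emb (algebraMap K L)) (Λ j x) V (fun l => (u l : L)) T = 0}

/-- the monomial `V^μ u^x T^α` -/
noncomputable def mon {O : Type} [CommRing O] {r s m : ℕ} (μ : Fin r → Fin 3 → ℕ) (x : Fin s → ℕ)
    (α : Fin m → ℕ) : Pol O r s m :=
  (∏ i, ∏ j, X (Sum.inl (i, j)) ^ μ i j) *
    ((∏ l, X (Sum.inr (Sum.inl l)) ^ x l) * ∏ i, X (Sum.inr (Sum.inr i)) ^ α i)

theorem result (K : Type) [Field K] [NumberField K] (N : ℕ) (ω : Module.Basis (Fin N) ℤ (𝓞 K))
    (r s m q κ : ℕ) (hκ : 1 ≤ κ) (a b : Fin r → ℤ)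
    (hab : ∀ i, a i * b i = 0 ∧ (a i ≠ 0 ∨ b i ≠ 0))
    (G : Fin q → Pol (𝓞 K) r s m) (dG : Fin q → Fin r → ℕ) (eG : Fin q → ℕ)
    (hG : ∀ l, Homog (G l) (dG l) (eG l)) (σ : K →+* ℂ) (hdim : DimLE σ a b G κ) :
    ∃ k₀ : ℕ,
      (∀ (Φ : Fin κ → Pol (𝓞 K) r s m) (ι : Fin κ → Type) [∀ j, Fintype (ι j)]
        (Λ : (j : Fin κ) → ι j → Pol (𝓞 K) r s m) (d : Fin κ → Fin r → ℕ) (e : Fin κ → ℕ),
        (∀ j, Homog (Φ j) (d j) (e j)) → (∀ j x, Homog (Λ j x) (d j) (e j)) →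
        (∀ j, SepFib σ a b G (Λ j) k₀) →
        -- 1. the number of the `X_c` with an integral point
        (∀ (L : Type) [Field L] [NumberField L] [Algebra K L],
          (Function.Surjective (algebraMap K L) ∨ ∀ j, SepTwo σ a b G (Λ j) k₀) →
          ∀ Γ : Subgroup Lˣ, Γ.FG → ∃ c₀ : ℝ, 0 < c₀ ∧ ∃ H₀ : ℕ, ∀ H : ℕ, H₀ ≤ H →
            (({c : (Σ j, ι j) × Fin N → ℤ | (∀ i, |c i| ≤ (H : ℤ)) ∧
              c ∈ HasPoint ω a b Γ G Φ Λ}.ncard : ℕ) : ℝ) ≤
              (2 * (H : ℝ) + 1) ^ (Fintype.card (Σ j, ι j) * N) *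
                Real.exp (-c₀ * (Real.log H / Real.log (Real.log H)))) ∧
        -- 2. one exceptional set for all fields and all groups
        ∃ E : Set ((Σ j, ι j) × Fin N → ℤ),
          (∃ H₀ : ℕ, ∀ H : ℕ, H₀ ≤ H →
            (({c : (Σ j, ι j) × Fin N → ℤ | (∀ i, |c i| ≤ (H : ℤ)) ∧ c ∈ E}.ncard : ℕ) : ℝ) ≤
              (2 * (H : ℝ) + 1) ^ (Fintype.card (Σ j, ι j) * N) *
                Real.exp (-(Real.log H / Real.log (Real.log H) ^ 2))) ∧
          ∀ (L : Type) [Field L] [NumberField L] [Algebra K L],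
            (Function.Surjective (algebraMap K L) ∨ ∀ j, SepTwo σ a b G (Λ j) k₀) →
            ∀ Γ : Subgroup Lˣ, Γ.FG → (HasPoint ω a b Γ G Φ Λ \ E).Finite) ∧
      -- 3. systems of monomials which separate `k₀` points
      ∀ (ι : Type) (Λ : ι → Pol (𝓞 K) r s m) (d : Fin r → ℕ) (e : ℕ) (x₀ : Fin s → ℕ),
        k₀ ≤ e + 1 →
        (∀ (μ : Fin r → Fin 3 → ℕ) (α : Fin m → ℕ), (∀ i, ∑ j, μ i j = d i) → ∑ i, α i = e →
          ∃ y, Λ y = mon μ x₀ α) →
        SepFib σ a b G Λ k₀ ∧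
        ((∀ i, 1 ≤ d i) → (∀ (μ : Fin r → Fin 3 → ℕ) (α : Fin m → ℕ) (l : Fin s),
          (∀ i, ∑ j, μ i j = d i) → ∑ i, α i = e →
            ∃ y, Λ y = mon μ (Function.update x₀ l (x₀ l + 1)) α) → SepTwo σ a b G Λ k₀) := by
  obtain ⟨k₀, h1, h2⟩ := Pool.Agent.N89.GS.finGS K N ω r s m q κ hκ a b hab G dG eG
    (fun l => (hG l).1) (fun l => (hG l).2) σ hdim
  refine ⟨k₀, ?_, h2⟩
  intro Φ ι _ Λ d e hΦ hΛ hsf
  obtain ⟨h3, E, h4, h5⟩ := h1 Φ ι Λ d e (fun j => (hΦ j).1) (fun j => (hΦ j).2)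
    (fun j x => (hΛ j x).1) (fun j x => (hΛ j x).2) hsf
  have key : ∀ (L : Type) [Field L] [NumberField L] [Algebra K L] (Γ : Subgroup Lˣ),
      HasPoint ω a b Γ G Φ Λ = Pool.Agent.N89.GS.BadAll ω a b Γ G Φ Λ := by
    intro L _ _ _ Γ
    ext c
    constructor
    · rintro ⟨V, u, T, hV, hu, hT, hc⟩
      exact ⟨V, u, T, hV.1, hu, hT, hc⟩
    · rintro ⟨V, u, T, hV, hu, hT, hc⟩
      exact ⟨V, u, T, ⟨hV, fun l => (u l).ne_zero⟩, hu, hT, hc⟩
  refine ⟨?_, E, h4, ?_⟩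
  · intro L _ _ _ hL Γ hΓ
    obtain ⟨c₀, hc₀, H₀, h⟩ := h3 L hL Γ hΓ
    refine ⟨c₀, hc₀, H₀, fun H hH => ?_⟩
    rw [key]
    exact h H hH
  · intro L _ _ _ hL Γ hΓ
    rw [key]
    exact h5 L hL Γ hΓ

end Pool.Agent.Results.MP_26d9ad_nt.LinearSystemsOverSemiabelian
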