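import Pool.Agent.N111.QC.Cls

/-!
MP_26d9ad_nt, Q1: the conjecture of Lang and Vojta on integral points for all quasi-projective schemes
over an arithmetic scheme `Spec B` is equivalent to the conjecture for the smooth rational ones: the
quasi-projective schemes over `B` which are covered by open subschemes of affine spaces over `B`.

Let `B` be a finitely generated domain of characteristic zero, and let `K` be an algebraically closed
field which contains `B`, for example the algebraic closure of the field of fractions of `B`.
Quasi-projective schemes over `B` are given as locally closed subschemes of `ℙ ^ n × 𝔸 ^ τ`, `τ` a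
finite set: `F` is a finite family of equations, and `H` is a finite family of functions, some of which
has to be nonzero; all of them are homogeneous in the coordinates `x_0, …, x_n` (`HomX`). See the file
`Pool/Agent/N111/QC/QP.lean` for the definitions:

* `Extends O H x s`: the point `(x, s)` of `ℙ ^ n × 𝔸 ^ τ` over a field `L` extends to a point over
  the local ring `O ⊂ L` of the open subscheme where some of the functions `H` is not zero;
* `Pts R F H`: the set `U(R)` of the points over the domain `R` of the scheme `U` given by `F`, `H`: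
  the points over the field of fractions of `R` which extend to all local rings of `R`;
* `GenPt K F H x s`: `(x, s)` is the generic point of a closed subvariety of `U` over `K` with
  function field `E`;
* `AllLG K F H`: all closed subvarieties of positive dimension of `U` over `K` are of log general
  type; the places `P` of the function field which do not have a centre on the subvariety are those for
  which `(x, s)` does not extend to the valuation ring of `P`;
* `LV K F H`: the conjecture Q1 for `U` over `B`: if all subvarieties of `U` are of log general type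
  then `U(B)` is finite;
* `AffineCharts F`: the open subschemes `x_j ≠ 0` of the closed subscheme `W` of `ℙ ^ n × 𝔸 ^ τ` given
  by `F` are isomorphic to affine spaces over `B`. So `W`, and every open subscheme of `W`, is smooth
  over `B`, and its components are rational varieties;
* `ClosedIn F H F' H'`: the scheme given by `F`, `H` is the closed subscheme of the scheme given by
  `F'`, `H'` where the new coordinates vanish.

Proof. Let `U` be given by `F_i` of degrees `e_i` and by `H`. The equations `∑_j x_j ^ (e_i + 1) c_ij =
F_i(x, s)`, where `c_ij` is a coordinate of degree `-1` in `x`, define an affine bundle `W` over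
`ℙ ^ n × 𝔸 ^ τ`, since the functions `x_j ^ (e_i + 1)` have no common zeros. Its subscheme `c = 0` is
the closed subscheme `{F = 0}` of `ℙ ^ n × 𝔸 ^ τ`. The functions `T_t`, `t = 1, …, M`, which are the
products `c_ij x_k` and `c_ij x_k s_l`, are regular on `W` and separate the points off `{c = 0}`. Let
`X` be the open subscheme of `W` where `g_l = 1 + l T_1 + l ^ 2 T_2 + … + l ^ M T_M` is not zero for
`l = 1, …, 2 M`, and some `H` is not zero. The functions `g_l` are units on `X`, and by the theorem on
unit equations over finitely generated domains and Green's argument for `2 M + 1` hyperplanes in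
general position, the functions `T_t` have only finitely many values at the points of `X` over `R`. In
the same way, logarithmic forms show that all subvarieties of `X` which are not contained in `U` are
of log general type.
-/

set_option autoImplicit false
set_option linter.overlappingInstances false

namespace Pool.Agent.Results.MP_26d9ad_nt.RationalVarieties

open MvPolynomial
open Pool.Agent.W602.GT (LogGeneralType)
open Pool.Agent.N111.QC (HomX Extends Pts GenPt LV AffineCharts ClosedIn)

/-- Let `B` be a finitely generated domain of characteristic zero, and let `K` be an algebraically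
closed field which contains `B`.

**(1)** Every quasi-projective scheme `U` over `B`, given in `ℙ ^ n × 𝔸 ^ τ` by `F` and `H`, is a
closed subscheme of a quasi-projective scheme `X` over `B`, given in `ℙ ^ n × 𝔸 ^ τ × 𝔸 ^ υ` by `F'`
and `H'`, which is open in a scheme whose charts are affine spaces over `B`, such that everything on
`X` which is not contained in `U` is as in the conjecture: the set `X(R) ∖ U(R)` is finite for each
algebra `R` over `B` which is a finitely generated domain of characteristic zero, and all subvarieties
of `X` over `K` of positive dimension which are not contained in `U` are of log general type. Hence Q1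
for `X` is equivalent to Q1 for `U`.

**(2)** Q1 for all quasi-projective schemes over `B` is equivalent to Q1 for the open subschemes of the
closed subschemes of `ℙ ^ n × 𝔸 ^ τ` (for all `n` and `τ`) whose charts are affine spaces over `B`. -/
theorem result (B K : Type) [CommRing B] [IsDomain B] [CharZero B] [Algebra.FiniteType ℤ B]
    [Field K] [IsAlgClosed K] [Algebra B K] [FaithfulSMul B K] :
    (∀ (n : ℕ) (τ ι κ : Type) [Finite τ] [Finite ι] [Finite κ]
      (F : ι → MvPolynomial (Fin (n + 1) ⊕ τ) B) (H : κ → MvPolynomial (Fin (n + 1) ⊕ τ) B),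
      (∀ i, ∃ e, HomX (F i) e) → (∀ j, ∃ e, HomX (H j) e) →
      ∃ (υ ι' : Type) (_ : Finite υ) (_ : Finite ι')
        (F' : ι' → MvPolynomial (Fin (n + 1) ⊕ (τ ⊕ υ)) B)
        (H' : κ → MvPolynomial (Fin (n + 1) ⊕ (τ ⊕ υ)) B),
        (∀ i, ∃ e, HomX (F' i) e) ∧ (∀ j, ∃ e, HomX (H' j) e) ∧ AffineCharts F' ∧
        ClosedIn F H F' H' ∧
        (∀ (R : Type) [CommRing R] [IsDomain R] [CharZero R] [Algebra.FiniteType ℤ R]
          [Algebra B R], {P ∈ Pts R F' H' | ∃ u, P.2 (Sum.inr u) ≠ 0}.Finite) ∧
        (∀ (E : Type) [Field E] [Algebra B E] [Algebra K E] [IsScalarTower B K E]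
          (x : Fin (n + 1) → E) (s : τ ⊕ υ → E) (d : ℕ), GenPt K F' H' x s →
          (∃ u, s (Sum.inr u) ≠ 0) → 0 < d → Algebra.trdeg K E = d →
          LogGeneralType K E d fun P => ¬ Extends {z | P.Reg z} H' x s) ∧
        (LV K F' H' ↔ LV K F H)) ∧
    ((∀ (n : ℕ) (τ ι κ : Type) [Finite τ] [Finite ι] [Finite κ]
      (F : ι → MvPolynomial (Fin (n + 1) ⊕ τ) B) (H : κ → MvPolynomial (Fin (n + 1) ⊕ τ) B),
      (∀ i, ∃ e, HomX (F i) e) → (∀ j, ∃ e, HomX (H j) e) → LV K F H) ↔
    ∀ (n : ℕ) (τ ι κ : Type) [Finite τ] [Finite ι] [Finite κ]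
      (F : ι → MvPolynomial (Fin (n + 1) ⊕ τ) B) (H : κ → MvPolynomial (Fin (n + 1) ⊕ τ) B),
      (∀ i, ∃ e, HomX (F i) e) → (∀ j, ∃ e, HomX (H j) e) → AffineCharts F → LV K F H) := by
  have hK : CharZero K := charZero_of_injective_algebraMap (FaithfulSMul.algebraMap_injective B K)
  have h1 : ∀ (n : ℕ) (τ ι κ : Type) [Finite τ] [Finite ι] [Finite κ]
      (F : ι → MvPolynomial (Fin (n + 1) ⊕ τ) B) (H : κ → MvPolynomial (Fin (n + 1) ⊕ τ) B),
      (∀ i, ∃ e, HomX (F i) e) → (∀ j, ∃ e, HomX (H j) e) →
      ∃ (υ ι' : Type) (_ : Finite υ) (_ : Finite ι')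
        (F' : ι' → MvPolynomial (Fin (n + 1) ⊕ (τ ⊕ υ)) B)
        (H' : κ → MvPolynomial (Fin (n + 1) ⊕ (τ ⊕ υ)) B),
        (∀ i, ∃ e, HomX (F' i) e) ∧ (∀ j, ∃ e, HomX (H' j) e) ∧ AffineCharts F' ∧
        ClosedIn F H F' H' ∧
        (∀ (R : Type) [CommRing R] [IsDomain R] [CharZero R] [Algebra.FiniteType ℤ R]
          [Algebra B R], {P ∈ Pts R F' H' | ∃ u, P.2 (Sum.inr u) ≠ 0}.Finite) ∧
        (∀ (E : Type) [Field E] [Algebra B E] [Algebra K E] [IsScalarTower B K E]
          (x : Fin (n + 1) → E) (s : τ ⊕ υ → E) (d : ℕ), GenPt K F' H' x s →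
          (∃ u, s (Sum.inr u) ≠ 0) → 0 < d → Algebra.trdeg K E = d →
          LogGeneralType K E d fun P => ¬ Extends {z | P.Reg z} H' x s) ∧
        (LV K F' H' ↔ LV K F H) := by
    intro n τ ι κ _ _ _ F H hF hH
    choose e he using hF
    exact ⟨Pool.Agent.N111.QC.Ups ι n, _, inferInstance, inferInstance,
      Pool.Agent.N111.QC.Fb F e, Pool.Agent.N111.QC.Hb H, Pool.Agent.N111.QC.Fb_hom he,
      fun j => (hH j).imp fun _ h => Pool.Agent.N111.QC.Hb_hom h,
      Pool.Agent.N111.QC.charts F e, Pool.Agent.N111.QC.closedIn F H e,
      fun R _ _ _ _ _ => Pool.Agent.N111.QC.pts_off,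
      fun E _ _ _ _ x s d hg hoff hd htr => Pool.Agent.N111.QC.lg_off hg hoff hd htr,
      Pool.Agent.N111.QC.lv_iff'⟩
  refine ⟨h1, fun h n τ ι κ _ _ _ F H hF hH _ => h n τ ι κ F H hF hH,
    fun h n τ ι κ _ _ _ F H hF hH => ?_⟩
  obtain ⟨υ, ι', _, _, F', H', hF', hH', hch, -, -, -, hiff⟩ := h1 n τ ι κ F H hF hH
  exact hiff.1 (h n (τ ⊕ υ) ι' κ F' H' hF' hH' hch)

end Pool.Agent.Results.MP_26d9ad_nt.RationalVarieties
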